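import Pool.Agent.MP_c1891a_nt.G43.Spec
import Pool.Agent.MP_c1891a_nt.H22.Pos
import Pool.Agent.MP_c1891a_nt.H68.Many

/-! Positivity of the Mahler measures of the restrictions, in all dimensions. -/

namespace Pool.Agent.MP_c1891a_nt.G43

open Finset Polynomial Module H43

section lattice

variable {Λ ι : Type} [AddCommGroup Λ]

/-- the width of the exponents in the direction `v`. -/
def posNw (I : Finset ι) (m : ι → Λ) (v : Λ →ₗ[ℤ] ℤ) : ℕ :=
  (I ×ˢ I).sup fun p => (v (m p.1) - v (m p.2)).natAbs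

theorem posN_le {I : Finset ι} (m : ι → Λ) (v : Λ →ₗ[ℤ] ℤ) {i k : ι} (hi : i ∈ I) (hk : k ∈ I) :
    (v (m i) - v (m k)).natAbs ≤ posNw I m v :=
  le_sup (f := fun p : ι × ι => (v (m p.1) - v (m p.2)).natAbs) (mk_mem_product hi hk)

theorem posN_norm [Module.Finite ℤ Λ] {I : Finset ι} {m : ι → Λ}
    (h : ∀ u : Λ →ₗ[ℤ] ℤ, u ≠ 0 → ∃ i ∈ I, ∃ k ∈ I, u (m i) ≠ u (m k)) (l : Λ) :
    ∃ C : ℕ, ∀ v : Λ →ₗ[ℤ] ℤ, (v l).natAbs ≤ C * posNw I m v := by
  let P : Submodule ℤ Λ :=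
    { carrier := {l | ∃ C : ℕ, ∀ v : Λ →ₗ[ℤ] ℤ, (v l).natAbs ≤ C * posNw I m v}
      zero_mem' := ⟨0, by simp⟩
      add_mem' := fun ⟨C, hC⟩ ⟨C', hC'⟩ => ⟨C + C', fun v => by
        rw [map_add, add_mul]
        exact (Int.natAbs_add_le _ _).trans (add_le_add (hC v) (hC' v))⟩
      smul_mem' := fun k _ ⟨C, hC⟩ => ⟨k.natAbs * C, fun v => by
        rw [map_smul, smul_eq_mul, Int.natAbs_mul, mul_assoc]
        exact Nat.mul_le_mul_left _ (hC v)⟩ }
  have : IsTorsionFree ℤ (Λ ⧸ P) := IsTorsionFree.of_smul_eq_zero fun k x hx => by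
    obtain ⟨x, rfl⟩ := P.mkQ_surjective x
    rw [← map_smul, Submodule.mkQ_apply, Submodule.Quotient.mk_eq_zero] at hx
    obtain ⟨C, hC⟩ := hx
    refine (eq_or_ne k 0).imp_right fun hk => (Submodule.Quotient.mk_eq_zero P).2 ⟨C, fun v => ?_⟩
    refine le_trans ?_ (hC v)
    rw [map_smul, smul_eq_mul, Int.natAbs_mul]
    exact Nat.le_mul_of_pos_left _ (Int.natAbs_pos.2 hk)
  refine (Submodule.Quotient.mk_eq_zero P).1 ((forall_dual_apply_eq_zero_iff ℤ _).1 fun φ => ?_)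
  by_contra h0
  obtain ⟨i, hi, k, hk, e⟩ := h (φ ∘ₗ P.mkQ) fun e => h0 (LinearMap.congr_fun e l)
  refine e (congrArg φ ((Submodule.Quotient.eq P).2 ⟨1, fun v => ?_⟩))
  rw [map_sub, one_mul]
  exact posN_le m v hi hk

/-- the point of the translate with parameter `α`. -/
noncomputable def posNx (χ : AddChar Λ ℂ) (v : Λ →ₗ[ℤ] ℤ) {α : ℂ} (h : α ≠ 0) : AddChar Λ ℂ where
  toFun l := χ l * α ^ v l
  map_zero_eq_one' := by simp
  map_add_eq_mul' a b := by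
    rw [AddChar.map_add_eq_mul, map_add, zpow_add₀ h]
    ring

theorem posN_bad (χ : AddChar Λ ℂ) (v : Λ →ₗ[ℤ] ℤ) (l₁ l₂ : Λ) {B : ℕ} (hB : 1 ≤ B)
    (hno : ∀ s t : ℤ, s.natAbs ≤ B → t.natAbs ≤ B → v (s • l₁ + t • l₂) = 0 →
      χ (s • l₁ + t • l₂) = 1 → s = 0 ∧ t = 0) (Z : Finset ℂ)
    (hZ : ∀ α ∈ Z, α ≠ 0 ∧ χ l₁ * α ^ v l₁ = 1 ∧ χ l₂ * α ^ v l₂ = 1) :
    Z.card * B ≤ max (v l₁).natAbs (v l₂).natAbs := by
  classical
  rcases Z.eq_empty_or_nonempty with rfl | ⟨β, hβ⟩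
  · simp
  obtain ⟨b0, b1, b2⟩ := hZ β hβ
  rcases Nat.eq_zero_or_pos (Int.gcd (v l₁) (v l₂)) with h | h
  · have h1 := (Int.gcd_eq_zero_iff.1 h).1
    exact absurd (hno 1 0 hB (by simp) (by simpa using h1) (by simpa [h1] using b1)).1 one_ne_zero
  have hc : Z.card ≤ Int.gcd (v l₁) (v l₂) := by
    refine (card_le_card fun α hα => ?_).trans ((Multiset.toFinset_card_le _).trans
      (card_nthRoots _ (β ^ Int.gcd (v l₁) (v l₂))))
    obtain ⟨a0, a1, a2⟩ := hZ α hα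
    rw [Multiset.mem_toFinset, mem_nthRoots h, ← zpow_natCast, ← zpow_natCast,
      Int.gcd_eq_gcd_ab, zpow_add₀ a0, zpow_add₀ b0, zpow_mul, zpow_mul, zpow_mul, zpow_mul,
      eq_inv_of_mul_eq_one_right a1, eq_inv_of_mul_eq_one_right a2,
      eq_inv_of_mul_eq_one_right b1, eq_inv_of_mul_eq_one_right b2]
  obtain ⟨s, t, hg, e1, e2⟩ := Int.exists_gcd_one h
  generalize Int.gcd (v l₁) (v l₂) = G at hc e1 e2
  have h3 : v (t • l₁ + -s • l₂) = 0 := by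
    rw [map_add, map_smul, map_smul, e1, e2, smul_eq_mul, smul_eq_mul]
    ring
  have h4 : posNx χ v b0 (t • l₁ + -s • l₂) = 1 := by
    rw [AddChar.map_add_eq_mul, AddChar.map_zsmul_eq_zpow, AddChar.map_zsmul_eq_zpow,
      show posNx χ v b0 l₁ = 1 from b1, show posNx χ v b0 l₂ = 1 from b2]
    simp
  have h5 : B ≤ max s.natAbs t.natAbs := by
    by_contra h6
    have h7 := hno t (-s) (by omega) (by omega) h3
      (((mul_one _).symm.trans (by rw [← zpow_zero β, ← h3]; rfl)).trans h4)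
    rw [h7.1, neg_eq_zero.1 h7.2] at hg
    simp at hg
  rw [e1, e2, Int.natAbs_mul, Int.natAbs_mul, Int.natAbs_natCast, Nat.mul_max_mul_right, mul_comm]
  exact Nat.mul_le_mul h5 hc

end lattice

open Classical in
theorem posN_mult (F : ℂ[X]) {k : ℕ} (hs : F.support.card ≤ k) (p : ℂ → Prop) (Z : Finset ℂ)
    (hZ : ∀ α ∈ F.roots, α ≠ 0 → ¬ p α → α ∈ Z) :
    ∃ s ≤ F.roots, (∀ α ∈ s, α ≠ 0 ∧ p α) ∧
      (F.roots.filter fun α => α ≠ 0).card ≤ s.card + Z.card * k := by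
  refine ⟨F.roots.filter fun α => p α ∧ α ≠ 0, Multiset.filter_le _ _,
    fun α hα => (Multiset.mem_filter.1 hα).2.symm, ?_⟩
  have h3 := congrArg Multiset.card (Multiset.filter_add_not p (F.roots.filter fun α => α ≠ 0))
  rw [Multiset.card_add, Multiset.filter_filter, Multiset.filter_filter] at h3
  rw [← h3]
  refine Nat.add_le_add_left ?_ _
  rw [← Multiset.toFinset_sum_count_eq]
  refine (sum_le_card_nsmul _ _ k fun α hα => ?_).trans ?_
  · rw [Multiset.mem_toFinset, Multiset.mem_filter] at hα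
    refine (Multiset.count_le_of_le α (Multiset.filter_le _ _)).trans ?_
    rw [count_roots]
    by_contra hc
    exact (mem_roots'.1 hα.1).1 (many_sparse α hα.2.2 _ F hs
      ((pow_dvd_pow _ (not_le.1 hc).le).trans (pow_rootMultiplicity_dvd F α)))
  · refine Nat.mul_le_mul_right _ (card_le_card fun α hα => ?_)
    rw [Multiset.mem_toFinset, Multiset.mem_filter] at hα
    exact hZ α hα.1 hα.2.2 hα.2.1

/-- many roots without two independent relations. -/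
theorem posN_many (h3 : SMann) {Λ ι : Type} [AddCommGroup Λ] [Module.Free ℤ Λ] [Module.Finite ℤ Λ]
    {I : Finset ι} {c : ι → ℂ} {m : ι → Λ} (hc : ∀ i ∈ I, c i ≠ 0) (hm : Set.InjOn m I)
    (hu : ∀ u : Λ →ₗ[ℤ] ℤ, u ≠ 0 → ∃ i ∈ I, ∃ k ∈ I, u (m i) ≠ u (m k)) (Pp : Finset (Λ × Λ))
    (hP : ∀ l ∈ Pp, ∀ s t : ℤ, s • l.1 + t • l.2 = 0 → s = 0 ∧ t = 0) :
    ∃ T : Finset Λ, ∀ (χ : AddChar Λ ℂ) (v : Λ →ₗ[ℤ] ℤ) (A : ℤ), (∀ l, Tor (χ l)) → v ≠ 0 →
      (∀ i ∈ I, 0 ≤ A + v (m i)) → (∀ l ∈ T, l ≠ 0 → v l = 0 → χ l ≠ 1) →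
      FP I c m χ v A ≠ 0 ∧ ∃ s ≤ (FP I c m χ v A).roots, posNw I m v ≤ 2 * s.card ∧
        ∀ α ∈ s, α ≠ 0 ∧ ∀ l ∈ Pp, ¬ (χ l.1 * α ^ v l.1 = 1 ∧ χ l.2 * α ^ v l.2 = 1) := by
  classical
  choose! B hB using fun (J : Finset ι) (hJ : ∃ i ∈ J, c i ≠ 0) => h3 ι J c hJ
  choose C hC using posN_norm hu
  obtain ⟨C₀, hC₀⟩ : ∃ C₀, ∀ l ∈ Pp, C l.1 ≤ C₀ ∧ C l.2 ≤ C₀ :=
    ⟨Pp.sup fun l => max (C l.1) (C l.2), fun l hl =>
      max_le_iff.1 (le_sup (f := fun l : Λ × Λ => max (C l.1) (C l.2)) hl)⟩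
  obtain ⟨B₁, hB₁⟩ : ∃ B₁, B₁ = 2 * (Pp.card * I.card * C₀) + 1 := ⟨_, rfl⟩
  refine ⟨(I ×ˢ I ×ˢ range (I.powerset.sup B + 1)).image (fun p => p.2.2 • (m p.1 - m p.2.1)) ∪
    (Pp ×ˢ Icc (-B₁ : ℤ) B₁ ×ˢ Icc (-B₁ : ℤ) B₁).image fun p => p.2.1 • p.1.1 + p.2.2 • p.1.2,
    fun χ v A hχ hv hA hT => ?_⟩
  have hcast : ∀ i ∈ I, ((A + v (m i)).toNat : ℤ) = A + v (m i) := fun i hi =>
    Int.toNat_of_nonneg (hA i hi)
  have hco : ∀ i ∈ I, (FP I c m χ v A).coeff (A + v (m i)).toNat ≠ 0 := by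
    intro i hi h0
    rw [FP, many_coeff] at h0
    obtain ⟨j, hj, k, hk, hjk, s, s0, s1, e⟩ := hB _ ⟨i, by simpa using hi, hc i hi⟩ _
      (fun i _ => hχ (m i)) h0
    obtain ⟨j1, j2⟩ := mem_filter.1 hj
    obtain ⟨k1, k2⟩ := mem_filter.1 hk
    refine hT (s • (m j - m k)) (mem_union_left _ (mem_image.2 ⟨(j, k, s), ?_, rfl⟩)) ?_ ?_ ?_
    · exact mk_mem_product j1 (mk_mem_product k1 (mem_range_succ_iff.2
        (s1.trans (le_sup (mem_powerset.2 (filter_subset _ _))))))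
    · rw [← natCast_zsmul]
      exact smul_ne_zero (by exact_mod_cast s0.ne') (sub_ne_zero.2 fun e => hjk (hm j1 k1 e))
    · have a1 := hcast j j1
      rw [j2, ← k2, hcast k k1] at a1
      rw [map_nsmul, map_sub, add_left_cancel a1, sub_self, smul_zero]
    · rw [AddChar.map_nsmul_eq_pow, AddChar.map_sub_eq_div, div_pow, e,
        div_self (pow_ne_zero _ (hχ _).ne_zero)]
  obtain ⟨i₀, hi₀, -⟩ := hu v hv
  refine ⟨fun e => hco i₀ hi₀ (by rw [e, coeff_zero]), ?_⟩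
  have hs : (FP I c m χ v A).support.card ≤ I.card := by
    refine le_trans (card_le_card fun j hj => ?_) (card_image_le (f := fun i => (A + v (m i)).toNat))
    rw [Polynomial.mem_support_iff, FP, many_coeff] at hj
    obtain ⟨μ, hμ, _⟩ := exists_ne_zero_of_sum_ne_zero hj
    exact mem_image.2 ⟨μ, (mem_filter.1 hμ).1, (mem_filter.1 hμ).2⟩
  generalize FP I c m χ v A = F at hco hs ⊢
  have hw : posNw I m v ≤ (F.roots.filter fun α => α ≠ 0).card := Finset.sup_le fun p hp => by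
    obtain ⟨p1, p2⟩ := mem_product.1 hp
    have a1 := many_gap _ _ _ (hco _ p1) (hco _ p2)
    have a2 := many_gap _ _ _ (hco _ p2) (hco _ p1)
    have e1 := hcast _ p1
    have e2 := hcast _ p2
    omega
  let Z : Λ × Λ → Finset ℂ := fun l => F.roots.toFinset.filter fun α =>
    α ≠ 0 ∧ χ l.1 * α ^ v l.1 = 1 ∧ χ l.2 * α ^ v l.2 = 1
  have hZ : ∀ l ∈ Pp, (Z l).card * B₁ ≤ C₀ * posNw I m v := fun l hl => by
    refine (posN_bad χ v l.1 l.2 (by omega) (fun s t s1 t1 a1 a2 => hP l hl s t ?_) _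
      fun α hα => (mem_filter.1 hα).2).trans (max_le ((hC _ v).trans ?_) ((hC _ v).trans ?_))
    · by_contra h0
      refine hT _ (mem_union_right _ (mem_image.2 ⟨(l, s, t), ?_, rfl⟩)) h0 a1 a2
      simp only [mem_product, mem_Icc, hl, true_and]
      omega
    · exact Nat.mul_le_mul_right _ (hC₀ l hl).1
    · exact Nat.mul_le_mul_right _ (hC₀ l hl).2
  obtain ⟨s, s1, s2, h1⟩ := posN_mult F hs
    (fun α => ∀ l ∈ Pp, ¬ (χ l.1 * α ^ v l.1 = 1 ∧ χ l.2 * α ^ v l.2 = 1)) (Pp.biUnion Z)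
    fun α a1 a2 a3 => by
      push Not at a3
      obtain ⟨l, hl, a4⟩ := a3
      exact mem_biUnion.2 ⟨l, hl, mem_filter.2 ⟨Multiset.mem_toFinset.2 a1, a2, a4⟩⟩
  have h2 : (Pp.biUnion Z).card * B₁ ≤ Pp.card * (C₀ * posNw I m v) := by
    refine (Nat.mul_le_mul_right _ card_biUnion_le).trans ?_
    rw [sum_mul]
    exact sum_le_card_nsmul _ _ _ hZ
  have h4 : 2 * ((Pp.biUnion Z).card * I.card) ≤ posNw I m v := by
    refine Nat.le_of_mul_le_mul_right ?_ (show 0 < B₁ by omega)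
    have := Nat.mul_le_mul_left (2 * I.card) h2
    rw [hB₁] at this ⊢
    nlinarith
  have h5 := hw.trans h1
  exact ⟨s, s1, by omega, s2⟩

section twist

variable {Λ : Type} (I : Finset Λ) (z : Λ → ℤ) (e : Λ → ℕ)

/-- the Frobenius twists of the restriction. -/
noncomputable def posNF {R : Type} [CommRing R] (u : Λ → R) (j : ℕ) : R[X] :=
  ∑ μ ∈ I, (z μ : R[X]) * (C (u μ) * X ^ e μ) ^ j

theorem posN_map {R S : Type} [CommRing R] [CommRing S] (φ : R →+* S) (u : Λ → R) (j : ℕ) :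
    (posNF I z e u j).map φ = posNF I z e (fun μ => φ (u μ)) j := by
  simp [posNF, Polynomial.map_sum]

variable {I e}

theorem posN_deg {R : Type} [CommRing R] (u : Λ → R) (j : ℕ) {D : ℕ} (h : ∀ μ ∈ I, e μ ≤ D) :
    (posNF I z e u j).natDegree ≤ j * D := by
  refine natDegree_sum_le_of_forall_le _ _ fun μ hμ => ?_
  rw [← C_eq_intCast]
  refine (natDegree_C_mul_le _ _).trans (natDegree_pow_le.trans (Nat.mul_le_mul_left _ ?_))
  exact (natDegree_C_mul_X_pow_le _ _).trans (h μ hμ)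

theorem posN_bound {u : Λ → ℂ} (hu : ∀ μ, ‖u μ‖ = 1) (j : ℕ) {D : ℕ} (h : ∀ μ ∈ I, e μ * j ≤ D)
    (α : ℂ) : ‖(posNF I z e u j).eval α‖ ≤ (∑ μ ∈ I, (z μ).natAbs : ℕ) * max 1 ‖α‖ ^ D := by
  rw [posNF, eval_finsetSum, Nat.cast_sum, sum_mul]
  refine (norm_sum_le _ _).trans (sum_le_sum fun μ hμ => ?_)
  simp only [eval_mul, eval_pow, eval_intCast, eval_C, eval_X, norm_mul, norm_pow, hu,
    one_mul, Complex.norm_intCast]
  rw [Nat.cast_natAbs, Int.cast_abs, ← pow_mul]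
  refine mul_le_mul_of_nonneg_left ?_ (abs_nonneg _)
  exact (pow_le_pow_left₀ (norm_nonneg _) (le_max_right 1 _) _).trans
    (pow_le_pow_right₀ (le_max_left _ _) (h μ hμ))

theorem posN_eval [AddCommGroup Λ] (χ : AddChar Λ ℂ) (v : Λ →ₗ[ℤ] ℤ) {A : ℕ}
    (h : ∀ μ ∈ I, (e μ : ℤ) = A + v μ) (j : ℕ) {α : ℂ} (hα : α ≠ 0) :
    (posNF I z e χ j).eval α = (α ^ A) ^ j * evN I (fun μ => (z μ : ℂ)) id (posNx χ v hα ^ j) := by
  rw [posNF, eval_finsetSum, evN, mul_sum]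
  refine sum_congr rfl fun μ hμ => ?_
  have e1 : α ^ e μ = α ^ A * α ^ v μ := by
    rw [← zpow_natCast, h μ hμ, zpow_add₀ hα, zpow_natCast]
  have e2 : posNx χ v hα μ = χ μ * α ^ v μ := rfl
  simp only [eval_mul, eval_pow, eval_intCast, eval_C, eval_X, e1, AddChar.pow_apply, id, e2,
    mul_pow]
  ring

end twist

theorem sPosN (h1 : SChain) (h2 : SFrob2) (h3 : SMann) : SPosN := by
  classical
  intro Λ ι K _ _ _ _ _ ι₀ I c m I' z hr hc hm hu hF hz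
  obtain ⟨Ll, Pp, hL, hP, hx⟩ := h1 Λ I' _ hr hF (3 * ∑ μ ∈ I', (z μ).natAbs)
  obtain ⟨T, hT⟩ := posN_many h3 (c := fun i => ι₀ (c i))
    (fun i hi => (map_ne_zero ι₀).2 (hc i hi).2) hm hu Pp hP
  choose C hC using posN_norm hu
  obtain ⟨N₀, hN₀⟩ : ∃ N₀, ∀ a ∈ Ll, a.1 * a.2 ≤ N₀ :=
    ⟨Ll.sup fun a => a.1 * a.2, fun a ha => le_sup (f := fun a : ℕ × ℕ => a.1 * a.2) ha⟩
  have h30 : 0 < Real.log 3 := Real.log_pos (by norm_num)
  refine ⟨Real.log 3 / (4 * (N₀ * I'.sup C : ℕ) + 1), T, by positivity,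
    fun L _ _ _ σ₀ η v A hσ₀ hη hv hA => or_iff_not_imp_left.2 fun hno => ?_⟩
  obtain ⟨N, hN, hηN⟩ := isOfFinOrder_iff_pow_eq_one.1 hη
  have hη1 : ∀ l, η l ^ N = 1 := fun l => DFunLike.congr_fun hηN l
  have t : ∀ (σ : L →+* ℂ) l, Tor (σ (η l)) := fun σ l => ⟨N, hN, by rw [← map_pow, hη1, map_one]⟩
  let χ : AddChar Λ ℂ := σ₀.toMonoidHom.compAddChar η
  have hχ : ∀ l, χ l = σ₀ (η l) := fun _ => rfl
  obtain ⟨f0, s, hs, hs2, hs3⟩ := hT χ v A (t σ₀) hv hA fun l hl l0 l1 l2 =>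
    hno ⟨l, hl, l0, l1, σ₀.injective (by rw [← hχ, l2, map_one])⟩
  have hf : (FP I (fun i => algebraMap K L (c i)) m η v A).map σ₀ =
      FP I (fun i => ι₀ (c i)) m χ v A := by
    simp [FP, Polynomial.map_sum, hσ₀, hχ]
  have hfi : IntC (FP I (fun i => algebraMap K L (c i)) m η v A) := fun j => by
    rw [FP, finsetSum_coeff]
    refine IsIntegral.sum _ fun i hi => ?_
    rw [coeff_C_mul_X_pow]
    split_ifs
    · exact ((int_map _).2 (hc i hi).1).mul (IsIntegral.of_pow hN (hη1 _ ▸ isIntegral_one))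
    · exact isIntegral_zero
  have hR : ∀ α ∈ s, ∀ h : α ≠ 0, evN I' (fun μ => (z μ : ℂ)) id (posNx χ v h) = 0 := by
    intro α hα h
    have a1 := (mem_roots f0).1 (Multiset.mem_of_le hs hα)
    refine hz _ (mul_left_cancel₀ (zpow_ne_zero A h) ?_)
    rw [mul_zero, ← a1.eq_zero, FP, eval_finsetSum, evN, mul_sum]
    refine sum_congr rfl fun i hi => ?_
    rw [eval_mul, eval_C, eval_pow, eval_X, ← zpow_natCast, Int.toNat_of_nonneg (hA i hi),
      zpow_add₀ h, show posNx χ v h (m i) = χ (m i) * α ^ v (m i) from rfl]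
    ring
  rw [← hf] at f0 hs
  generalize FP I (fun i => algebraMap K L (c i)) m η v A = f at f0 hs hfi ⊢
  have f1 : f ≠ 0 := fun h => f0 (by rw [h, Polynomial.map_zero])
  refine ⟨f1, ?_⟩
  have w0 : 0 < posNw I m v := by
    obtain ⟨i, hi, k, hk, e⟩ := hu v hv
    have := posN_le m v hi hk
    omega
  obtain ⟨A', hA'⟩ : ∃ A', A' = I'.sup C * posNw I m v := ⟨_, rfl⟩
  let e : Λ → ℕ := fun μ => (A' + v μ).toNat
  have he : ∀ μ ∈ I', (e μ : ℤ) = A' + v μ ∧ e μ ≤ 2 * A' := fun μ hμ => by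
    have := (hC μ v).trans (Nat.mul_le_mul_right _ (le_sup (f := C) hμ))
    simp only [e]
    omega
  let O := integralClosure ℤ L
  let u : Λ → O := fun μ => ⟨η μ, IsIntegral.of_pow hN (hη1 _ ▸ isIntegral_one)⟩
  let φ : O →+* L := O.val.toRingHom
  choose W hW using fun a : Ll =>
    pos_frob (hL a a.2).1 I' z fun μ => (Polynomial.C (u μ) * X ^ e μ) ^ a.1.1
  have hW' : ∀ a : Ll, posNF I' z e u (a.1.1 * a.1.2) - posNF I' z e u a.1.1 ^ a.1.2 =
      a.1.2 * W a := fun a => by simpa only [posNF, pow_mul] using hW a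
  have hσ : ∀ (σ : L →+* ℂ) (j : ℕ), ((posNF I' z e u j).map φ).map σ =
      posNF I' z e (fun μ => σ (η μ)) j := fun σ j => by
    rw [posN_map, posN_map]
    rfl
  have hWσ : ∀ (a : Ll) (σ : L →+* ℂ) (α : ℂ), (((posNF I' z e u a.1.1).map φ).map σ).IsRoot α →
      a.1.2 * (((W a).map φ).map σ).eval α =
        (posNF I' z e (fun μ => σ (η μ)) (a.1.1 * a.1.2)).eval α := by
    intro a σ α hα
    have := congrArg (fun g : O[X] => ((g.map φ).map σ).eval α) (hW' a)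
    simp only [Polynomial.map_sub, Polynomial.map_pow, Polynomial.map_mul, Polynomial.map_natCast,
      eval_sub, eval_pow, eval_mul, eval_natCast, hα.eq_zero, zero_pow (hL a a.2).1.ne_zero,
      sub_zero] at this
    rw [← this, hσ]
  have key := h2 L Ll σ₀ f (fun a => (posNF I' z e u a.1.1).map φ) (fun a => (W a).map φ)
    (N₀ * (2 * A')) (1 / 3) s f1 hfi
    (fun a => ⟨fun i => by rw [coeff_map]; exact ((W a).coeff i).2, ?_⟩) (by norm_num)
    (by norm_num) (fun a σ α hα => ?_) hs fun α hα => ?_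
  · rw [one_div_one_div, hA'] at key
    generalize ∑ σ : L →+* ℂ, (f.map σ).logMahlerMeasure = M at key ⊢
    have ht : (0 : ℝ) < finrank ℚ L := by exact_mod_cast finrank_pos
    have a0 : (0 : ℝ) < posNw I m v := by exact_mod_cast w0
    have a1 : (posNw I m v : ℝ) ≤ 2 * s.card := by exact_mod_cast hs2
    have a2 := mul_le_mul_of_nonneg_right a1 (mul_pos ht h30).le
    push_cast at key ⊢
    have a3 : finrank ℚ L * Real.log 3 ≤ 4 * (N₀ * (I'.sup C : ℕ)) * M :=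
      le_of_mul_le_mul_left (by linarith) a0
    have hM : 0 ≤ M := by
      by_contra h
      have := mul_nonpos_of_nonneg_of_nonpos
        (by positivity : (0 : ℝ) ≤ 4 * (N₀ * (I'.sup C : ℕ))) (not_le.1 h).le
      linarith [mul_pos ht h30]
    rw [div_mul_eq_mul_div, div_le_iff₀ (by positivity)]
    linarith
  · have hlL : (a.1.2 : L) ≠ 0 := by exact_mod_cast (hL a a.2).1.ne_zero
    have := congrArg (Polynomial.map φ) (hW' a)
    rw [Polynomial.map_mul, Polynomial.map_natCast, ← C_eq_natCast] at this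
    rw [← natDegree_C_mul hlL, ← this]
    refine natDegree_map_le.trans ((natDegree_sub_le _ _).trans ((max_le
      (posN_deg z _ _ fun μ hμ => (he μ hμ).2) ?_).trans (Nat.mul_le_mul_right _ (hN₀ a a.2))))
    rw [mul_comm a.1.1, mul_assoc]
    exact natDegree_pow_le_of_le _ (posN_deg z _ _ fun μ hμ => (he μ hμ).2)
  · have e1 := congrArg norm (hWσ a σ α hα)
    rw [norm_mul, Complex.norm_natCast] at e1
    have b := posN_bound z (u := fun μ => σ (η μ)) (fun μ => (t σ μ).norm) (a.1.1 * a.1.2)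
      (D := N₀ * (2 * A')) (fun μ hμ => by
        rw [mul_comm]; exact Nat.mul_le_mul (hN₀ a a.2) (he μ hμ).2) α
    rw [← e1] at b
    have hH : 3 * ((∑ μ ∈ I', (z μ).natAbs : ℕ) : ℝ) ≤ a.1.2 := by exact_mod_cast (hL a a.2).2
    have hp : (0 : ℝ) ≤ max 1 ‖α‖ ^ (N₀ * (2 * A')) := by positivity
    refine le_of_mul_le_mul_left (b.trans ?_)
      (by exact_mod_cast (hL a a.2).1.pos : (0 : ℝ) < a.1.2)
    nlinarith
  · obtain ⟨h0, hα'⟩ := hs3 α hα
    obtain ⟨a, ha, a1, a2⟩ := (hx _ (hR α hα h0)).resolve_right fun ⟨l, hl, h⟩ => hα' l hl h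
    have ev := fun j => posN_eval z χ v (fun μ hμ => (he μ hμ).1) j h0
    have r : (((posNF I' z e u a.1).map φ).map σ₀).IsRoot α := by
      rw [hσ]
      exact (ev a.1).trans (by rw [a1, mul_zero])
    refine ⟨⟨a, ha⟩, r, fun h => ?_⟩
    have b := (hWσ ⟨a, ha⟩ σ₀ α r).trans (ev _)
    rw [h, mul_zero] at b
    exact mul_ne_zero (pow_ne_zero _ (pow_ne_zero _ h0)) a2 b.symm

end Pool.Agent.MP_c1891a_nt.G43
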